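import Mathlib

set_option autoImplicit false

namespace Pool.Agent.Results.MP_4da108_an.Hall

open Equiv Finset MeasureTheory

/-- `(A, u)` is the full group C*-algebra of the discrete group `G` (universal property). -/
def IsFull (G A : Type) [Group G] [CStarAlgebra A] (u : G →* unitary A) : Prop :=
  Dense (Submodule.span ℂ (Set.range fun g => (u g : A)) : Set A) ∧
  ∀ (B : Type) [CStarAlgebra B] (v : G →* unitary B), ∃ φ : A →⋆ₐ[ℂ] B, ∀ g, φ (u g) = v g

/-- Primitive ideal: the annihilator of a simple left module `A / L`. -/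
def Primitive {A : Type} [Ring A] (P : TwoSidedIdeal A) : Prop :=
  ∃ L : Ideal A, L.IsMaximal ∧ ∀ a, a ∈ P ↔ ∀ b, a * b ∈ L

def SameOnCenter {A : Type} [Ring A] (P Q : TwoSidedIdeal A) : Prop :=
  ∀ z ∈ Set.center A, z ∈ P ↔ z ∈ Q

def Central (A : Type) [Ring A] : Prop :=
  ∀ P Q : TwoSidedIdeal A, Primitive P → Primitive Q → SameOnCenter P Q → P = Q

def WeaklyCentral (A : Type) [Ring A] : Prop :=
  (∀ P Q : TwoSidedIdeal A, IsCoatom P → IsCoatom Q → SameOnCenter P Q → P = Q) ∧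
  ∀ M : TwoSidedIdeal A, IsCoatom M → ∃ z ∈ Set.center A, z ∉ M

lemma fin {Γ K : Type} [Group Γ] [Fintype Γ] [Group K] [Fintype K] (κ : K →* Γ) (a : Γ → ℝ)
    (a1 : a 1 ≠ 0) (h0 : ∀ g g', ∑ k, a (g * κ k * g') = 0)
    (ht : ∀ k, k ≠ 1 → ∃ t : Option K → Γ, ∀ i j, i ≠ j → IsConj (κ k) ((t i)⁻¹ * t j)) : False := by
  classical
  let χ : Γ → ℝ := fun h => ∑ g, ∑ x, a (g * h * x) * a (g * x)
  have D : 0 < χ 1 := sum_pos' (fun g _ => sum_nonneg fun x _ => by simpa using mul_self_nonneg _)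
    ⟨1, mem_univ _, sum_pos' (fun x _ => by simpa using mul_self_nonneg _)
      ⟨1, mem_univ _, by simpa using a1⟩⟩
  have c1 : ∀ s t, χ (s⁻¹ * t) = ∑ g, ∑ x, a (g * t * x) * a (g * s * x) := fun s t =>
    (Fintype.sum_equiv (Equiv.mulRight s) _ _ fun g => by simp [mul_assoc]).symm
  have c2 : ∀ h h', IsConj h h' → χ h' = χ h := fun h h' hc => by
    obtain ⟨c, rfl⟩ := isConj_iff.1 hc
    exact Fintype.sum_equiv (Equiv.mulRight c) _ _ fun g =>
      Fintype.sum_equiv (Equiv.mulLeft c⁻¹) _ _ fun x => by simp [mul_assoc]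
  have m0 : (0 : ℝ) < Fintype.card K := by exact_mod_cast Fintype.card_pos
  have c3 : ∀ k ∈ univ.erase 1, 0 ≤ χ 1 + Fintype.card K * χ (κ k) := fun k hk => by
    replace hk := ne_of_mem_erase hk
    obtain ⟨t, ht⟩ := ht k hk
    have e1 : ∑ i, ∑ j, χ ((t i)⁻¹ * t j) = ∑ g, ∑ x, (∑ j, a (g * t j * x)) ^ 2 := by
      simp only [c1, sq, sum_mul_sum]
      rw [sum_comm]
      simp only [sum_comm (s := (univ : Finset (Option K))) (t := (univ : Finset Γ))]
    have e2 : ∀ i, ∑ j, χ ((t i)⁻¹ * t j) = χ 1 + Fintype.card K * χ (κ k) := fun i => by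
      rw [← add_sum_erase _ _ (mem_univ i), inv_mul_cancel, sum_congr rfl fun j hj =>
        c2 _ _ (ht i j (ne_of_mem_erase hj).symm)]
      simp
    simp only [e2, sum_const, nsmul_eq_mul] at e1
    refine (mul_nonneg_iff_of_pos_left ?_).1 (e1.ge.trans' (by positivity))
    exact_mod_cast card_pos.2 univ_nonempty
  have z : ∑ k, χ (κ k) = 0 := by
    simp only [χ]
    rw [sum_comm]
    refine sum_eq_zero fun g _ => ?_
    rw [sum_comm]
    exact sum_eq_zero fun x _ => by rw [← sum_mul, h0, zero_mul]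
  have := sum_nonneg c3
  rw [← add_sum_erase _ _ (mem_univ 1), map_one] at z
  rw [sum_add_distrib, ← mul_sum, sum_const, card_erase_of_mem (mem_univ _), card_univ,
    nsmul_eq_mul, Nat.cast_pred Fintype.card_pos, eq_neg_of_add_eq_zero_right z] at this
  linarith

lemma conj {Γ : Type} [Group Γ] [Finite Γ] {a b : Γ} (h : orderOf a = orderOf b) :
    IsConj (MulAction.toPermHom Γ Γ a) (MulAction.toPermHom Γ Γ b) := by
  classical
  have := Fintype.ofFinite Γ
  rcases eq_or_ne a 1 with rfl | ha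
  · rw [orderOf_eq_one_iff.1 (h.symm.trans orderOf_one)]
  have key : ∀ c : Γ, c ≠ 1 → (∀ n ∈ (MulAction.toPermHom Γ Γ c).cycleType, n = orderOf c) ∧
      (MulAction.toPermHom Γ Γ c).cycleType.sum = Fintype.card Γ := fun c hc => by
    refine ⟨fun n hn => Nat.dvd_antisymm ((Perm.dvd_of_mem_cycleType hn).trans
      (orderOf_map_dvd _ _)) ?_, ?_⟩
    · obtain ⟨σ, τ, e, d, cy, rfl⟩ := Perm.mem_cycleType_iff.1 hn
      obtain ⟨x, hx⟩ := cy.nonempty_support
      have := congrArg (fun ρ => (ρ ^ σ.support.card) x) e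
      simp only [d.commute.mul_pow, ← map_pow] at this
      rw [← cy.orderOf, pow_orderOf_eq_one, one_mul, Perm.pow_apply_eq_self_of_apply_eq_self
        ((d x).resolve_left (Perm.mem_support.1 hx))] at this
      rw [← cy.orderOf]
      exact orderOf_dvd_of_pow_eq_one (by simpa using this)
    · rw [Perm.sum_cycleType, eq_univ_of_forall (s := Perm.support _) fun x => by simpa using hc,
        card_univ]
  obtain ⟨a1, a2⟩ := key a ha
  obtain ⟨b1, b2⟩ := key b fun hb => ha (orderOf_eq_one_iff.1 (h.trans (hb ▸ orderOf_one)))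
  have a3 := Multiset.eq_replicate_card.2 a1
  have b3 := Multiset.eq_replicate_card.2 b1
  rw [a3, Multiset.sum_replicate] at a2
  rw [b3, Multiset.sum_replicate, ← a2, ← h] at b2
  rw [Perm.isConj_iff_cycleType_eq, a3, b3, ← h,
    Nat.eq_of_mul_eq_mul_right (orderOf_pos a) b2]

def T : ℕ → Type
  | 0 => Fin 3
  | n + 1 => Perm (T n)

instance fT : ∀ n, Finite (T n)
  | 0 => inferInstanceAs (Finite (Fin 3))
  | n + 1 => have := fT n; inferInstanceAs (Finite (Perm (T n)))

lemma cT : ∀ n, n + 3 ≤ Nat.card (T n)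
  | 0 => (Nat.card_fin 3).ge
  | n + 1 => (Nat.succ_le_of_lt ((cT n).trans_lt (Nat.lt_factorial_self
      (by linarith [cT n])))).trans' (by omega) |>.trans (Nat.card_perm (α := T n)).ge

def f (i j : ℕ) (h : i ≤ j) : Perm (T i) →* Perm (T j) :=
  Nat.leRec (motive := fun j _ => Perm (T i) →* Perm (T j)) (MonoidHom.id _)
    (fun k _ φ => (MulAction.toPermHom (Perm (T k)) (Perm (T k))).comp φ) h

lemma fs {i j : ℕ} (h : i ≤ j) (x : Perm (T i)) :
    f i (j + 1) (h.trans j.le_succ) x = MulAction.toPermHom _ (Perm (T j)) (f i j h x) := by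
  rw [f, Nat.leRec_succ (h1 := h)]
  rfl

instance : DirectedSystem (fun n => Perm (T n)) (f · · ·) where
  map_self _ _ := by simp [f]
  map_map k j i hij hjk x := by
    induction hjk with
    | refl => simp [f]
    | step h ih => rw [fs h, ih, fs]

lemma finj (i j : ℕ) (h : i ≤ j) : Function.Injective (f i j h) := by
  induction h with
  | refl => simpa [f] using Function.injective_id
  | step h ih => exact fun x y e => ih (MulAction.toPerm_injective (by rwa [fs h, fs h] at e))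

/-- P. Hall's universal locally finite group. -/
abbrev U : Type := DirectLimit (fun n => Perm (T n)) f

noncomputable def ι (n : ℕ) : Perm (T n) →* U := MonoidHom.mk' (fun x => ⟦⟨n, x⟩⟧) fun x y =>
  (DirectLimit.mul_def (G := fun n => Perm (T n)) (f := f) n x y).symm

lemma ιf {i j : ℕ} (h : i ≤ j) (x : Perm (T i)) : ι j (f i j h x) = ι i x :=
  (DirectLimit.eq_of_le (F := fun n => Perm (T n)) (f := f) ⟨i, x⟩ j h).symm

lemma ιinj (n : ℕ) : Function.Injective (ι n) :=
  DirectLimit.mk_injective (F := fun n => Perm (T n)) f finj n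

lemma cover (s : Finset U) : ∃ n, ∀ g ∈ s, g ∈ (ι n).range := by
  classical
  induction s using Finset.induction_on with
  | empty => simp
  | insert g s _ ih =>
    obtain ⟨n, hn⟩ := ih
    obtain ⟨m, x, rfl⟩ := DirectLimit.exists_eq_mk _ g
    refine ⟨max m n, forall_mem_insert .. |>.2 ⟨⟨_, ιf (le_max_left m n) x⟩, fun g hg => ?_⟩⟩
    obtain ⟨y, rfl⟩ := hn g hg
    exact ⟨_, ιf (le_max_right m n) y⟩

instance : Countable U := by
  have : Countable (Σ n, Perm (T n)) := inferInstance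
  exact Quotient.countable

lemma nofn (n : ℕ) [Fintype (Perm (T n))] (a : U → ℝ) (a1 : a 1 ≠ 0)
    (h0 : ∀ g g', ∑ k, a (g * ι n k * g') = 0) : False := by
  classical
  let P := Option (Perm (T n)) → Perm (T n)
  let N := n + Nat.card P
  have nN : n ≤ N := Nat.le_add_right ..
  obtain ⟨e⟩ : Nonempty (P ↪ T N) := by
    have := Fintype.ofFinite (T N)
    refine Function.Embedding.nonempty_of_card_le ?_
    simp only [← Nat.card_eq_fintype_card]
    linarith [cT N, show N = n + Nat.card P from rfl]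
  let φ : P →* Perm (T N) := (Perm.viaEmbeddingHom e).comp (MulAction.toPermHom P P)
  have hφ : Function.Injective φ := (Perm.viaEmbeddingHom_injective e).comp MulAction.toPerm_injective
  have := Fintype.ofFinite (Perm (T (N + 1)))
  refine fin (f n (N + 1) (nN.trans N.le_succ)) (fun x => a (ι _ x)) (by simpa using a1)
    (fun g g' => by simpa only [map_mul, ιf] using h0 _ _) fun k hk =>
    ⟨fun i => MulAction.toPermHom _ (Perm (T N)) (φ (Pi.mulSingle i k)), fun i j ij => ?_⟩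
  rw [fs nN]
  suffices H : IsConj (MulAction.toPermHom _ (Perm (T N)) (f n N nN k))
    (MulAction.toPermHom _ (Perm (T N)) (φ ((Pi.mulSingle i k)⁻¹ * Pi.mulSingle j k))) by
    rw [map_mul, map_mul, φ.map_inv, map_inv] at H
    exact H
  refine conj ?_
  rw [orderOf_injective _ (finj _ _ _), orderOf_injective _ hφ, orderOf_eq_orderOf_iff]
  refine fun r => ⟨fun h => ?_, fun h => by simpa [P, ij.symm, ij] using congrFun h j⟩
  rw [((Pi.mulSingle_commute (f := fun _ => Perm (T n)) ij k k).inv_left).mul_pow, inv_pow, ← Pi.mulSingle_pow,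
    ← Pi.mulSingle_pow, h]
  simp

variable {A : Type} [CStarAlgebra A] {u : U →* unitary A}

lemma sub (hd : Dense (Submodule.span ℂ (Set.range fun g => (u g : A)) : Set A))
    {ε : A →⋆ₐ[ℂ] ℂ} (hε : ∀ g, ε (u g) = 1) {M : TwoSidedIdeal A} (hM : M ≠ ⊤) {x : A}
    (hx : x ∈ M) : ε x = 0 := by
  classical
  by_contra h
  obtain ⟨y, hy, hxy⟩ := hd.exists_dist_lt x (half_pos (norm_pos_iff.2 h))
  obtain ⟨c, rfl⟩ := Finsupp.mem_span_range_iff_exists_finsupp.1 hy
  obtain ⟨n, hn⟩ := cover c.support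
  have := Fintype.ofFinite (Perm (T n))
  set y := c.sum fun g r => r • (u g : A) with hy
  let p : A := ∑ k, u (ι n k)
  have yp : y * p = ε y • p := by
    simp only [hy, Finsupp.sum, map_sum, map_smul, hε, sum_mul, sum_smul, smul_eq_mul, mul_one,
      smul_mul_assoc]
    refine sum_congr rfl fun g hg => congrArg _ ?_
    obtain ⟨k, rfl⟩ := hn g hg
    rw [mul_sum]
    exact Fintype.sum_equiv (Equiv.mulLeft k) _ _ fun l => by simp
  have e1 : ‖ε (x - y)‖ ≤ ‖x - y‖ := NonUnitalStarAlgHom.norm_apply_le ε _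
  have e2 := norm_sub_norm_le (ε x) (ε y)
  rw [dist_eq_norm] at hxy
  rw [← map_sub] at e2
  have e3 : ‖x - y‖ < ‖ε y‖ := by linarith
  have hu : IsUnit (algebraMap ℂ A (ε y) - (y - x)) := by
    rcases subsingleton_or_nontrivial A with _ | _
    · exact isUnit_of_subsingleton _
    exact spectrum.mem_resolventSet_of_norm_lt (by rwa [norm_sub_rev])
  have hp : p ∈ M := by
    obtain ⟨w, hw⟩ := hu.exists_left_inv
    rw [← one_mul p, ← hw, mul_assoc, sub_mul, sub_mul, yp, ← Algebra.smul_def, sub_sub_cancel]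
    exact M.mul_mem_left _ _ (M.mul_mem_right _ _ hx)
  let S : Submodule ℝ A := { M.asIdeal.toAddSubmonoid with
    smul_mem' := fun r a ha => by
      rw [Algebra.smul_def]
      exact M.mul_mem_left _ _ ha }
  obtain ⟨ψ, h1, h2⟩ := S.exists_dual_map_eq_bot_of_notMem (x := 1)
    (fun h => hM ((TwoSidedIdeal.one_mem_iff M).1 h)) inferInstance
  refine nofn n (fun g => ψ (u g)) (by simpa using h1) fun g g' => ?_
  rw [← map_sum, ← Submodule.mem_bot ℝ, ← h2]
  refine Submodule.mem_map_of_mem (show _ ∈ M from ?_)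
  simpa [p, mul_sum, sum_mul] using M.mul_mem_right _ (u g') (M.mul_mem_left (u g) _ hp)

lemma reg : ∃ (B : Type) (_ : CStarAlgebra B) (v : U →* unitary B) (g : U), v g ≠ 1 := by
  letI : MeasurableSpace U := ⊤
  let H := Lp ℂ 2 (Measure.count : Measure U)
  let v : U →* (H ≃ₗᵢ[ℂ] H) := MonoidHom.mk' (fun g =>
    ⟨DistribMulAction.toLinearEquiv ℂ H (DomMulAct.mk g⁻¹), DomMulAct.norm_smul_Lp _⟩) fun a b => by
      ext1 x
      simp [mul_smul]
  have : Nontrivial (T 0) := inferInstanceAs (Nontrivial (Fin 3))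
  obtain ⟨k, hk⟩ := exists_ne (1 : Perm (T 0))
  refine ⟨H →L[ℂ] H, inferInstance, Unitary.linearIsometryEquiv.symm.toMonoidHom.comp v, ι 0 k,
    fun h => hk (ιinj 0 ?_)⟩
  have h1 : v (ι 0 k) = 1 := by simpa using h
  let δ : H := indicatorConstLp 2 (s := {1}) trivial (by simp) 1
  have h2 : ∀ x, δ x = _ := Measure.ae_count_iff.1 indicatorConstLp_coeFn
  have h3 := Measure.ae_count_iff.1 (DomMulAct.smul_Lp_ae_eq (DomMulAct.mk (ι 0 k)⁻¹) δ) 1
  rw [show DomMulAct.mk (ι 0 k)⁻¹ • δ = δ from congr($h1 δ), h2] at h3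
  simp only [h2] at h3
  by_contra h4
  rw [map_one] at h4
  simp [h4] at h3

lemma spec {A : Type} [CStarAlgebra A] [Nontrivial A] (x : A) (hx : x ≠ 0) :
    ∃ l : ℂ, l ≠ 0 ∧ ∀ c, c * (algebraMap ℂ A l - star x * x) ≠ 1 := by
  have sa := IsSelfAdjoint.star_mul_self x
  obtain ⟨l, hl, e⟩ := spectrum.exists_nnnorm_eq_spectralRadius (star x * x)
  rw [sa.spectralRadius_eq_nnnorm, ENNReal.coe_inj] at e
  refine ⟨l, fun h => hx (by simpa [h, CStarRing.star_mul_self_eq_zero_iff] using e.symm),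
    fun c hc => hl ?_⟩
  have := congrArg star hc
  rw [star_mul, star_sub, sa.star_eq, star_one, ← algebraMap_star_comm, sa.mem_spectrum_eq_re hl,
    RCLike.star_def, Complex.conj_ofReal, ← sa.mem_spectrum_eq_re hl] at this
  exact isUnit_iff_exists_and_exists.2 ⟨⟨_, this⟩, _, hc⟩

theorem result : ∃ (G : Type) (_ : Group G), Countable G ∧
    ∀ (A : Type) [CStarAlgebra A] (u : G →* unitary A), IsFull G A u →
      WeaklyCentral A ∧ ¬ Central A := by
  refine ⟨U, inferInstance, inferInstance, fun A _ u ⟨hd, hu⟩ => ?_⟩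
  obtain ⟨ε, hε⟩ := hu ℂ 1
  let M : TwoSidedIdeal A := TwoSidedIdeal.ker ε
  have mM : ∀ x, x ∈ M ↔ ε x = 0 := fun x => TwoSidedIdeal.mem_ker _
  have M1 : M ≠ ⊤ := fun h => by simpa using (mM 1).1 (h ▸ trivial)
  have le : ∀ P : TwoSidedIdeal A, P ≠ ⊤ → P ≤ M := fun P hP x hx => (mM x).2 (sub hd hε hP hx)
  have co : ∀ P : TwoSidedIdeal A, IsCoatom P → P = M := fun P hP =>
    ((hP.le_iff_eq M1).1 (le P hP.1)).symm
  refine ⟨⟨fun P Q hP hQ _ => (co P hP).trans (co Q hQ).symm, fun P hP =>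
    ⟨1, by simp, fun h => hP.1 ((TwoSidedIdeal.one_mem_iff P).1 h)⟩⟩, fun hC => ?_⟩
  obtain ⟨B, _, v, g, hg⟩ := reg
  obtain ⟨φ, hφ⟩ := hu B v
  have : Nontrivial A := ε.toRingHom.domain_nontrivial
  obtain ⟨l, l0, hl⟩ := spec (u g - 1 : A) fun h => hg (Subtype.ext (by
    rw [← hφ, sub_eq_zero.1 h, map_one]
    rfl))
  obtain ⟨L, hL, bL⟩ := Ideal.exists_le_maximal (Ideal.span {algebraMap ℂ A l -
    star (u g - 1 : A) * (u g - 1)}) fun h => by
      obtain ⟨c, hc⟩ := Ideal.mem_span_singleton'.1 ((Ideal.eq_top_iff_one _).1 h)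
      exact hl c hc
  let P : TwoSidedIdeal A := .mk' {a | ∀ b, a * b ∈ L} (by simp)
    (fun h1 h2 b => by rw [add_mul]; exact L.add_mem (h1 b) (h2 b))
    (fun h b => by rw [neg_mul]; exact L.neg_mem (h b))
    (fun h b => by rw [mul_assoc]; exact L.mul_mem_left _ (h b))
    fun h b => by rw [mul_assoc]; exact h _
  have mP : ∀ a, a ∈ P ↔ ∀ b, a * b ∈ L := fun a => TwoSidedIdeal.mem_mk' ..
  have P1 : P ≠ ⊤ := fun h => hL.ne_top ((Ideal.eq_top_iff_one _).2 (by
    simpa using (mP 1).1 (h ▸ trivial) 1))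
  have := hC P M ⟨L, hL, mP⟩ ⟨RingHom.ker ε, RingHom.ker_isMaximal_of_surjective _
    fun c => ⟨algebraMap ℂ A c, AlgHomClass.commutes ε c⟩, fun a => ⟨fun h b => by simp [(mM a).1 h],
      fun h => (mM a).2 (by simpa using h 1)⟩⟩ fun z hz => ⟨fun h => le P P1 h, fun h => ?_⟩
  · have h1 := (mP _).1 (this ▸ (mM (star (u g - 1 : A) * (u g - 1))).2 (by simp [hε])) 1
    have h2 := L.add_mem (bL (Ideal.mem_span_singleton_self _)) h1
    rw [mul_one, sub_add_cancel] at h2
    exact hL.ne_top (L.eq_top_of_isUnit_mem h2 (l0.isUnit.map _))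
  by_contra hP
  obtain ⟨l, l0, hl⟩ := spec z fun h => hP (h ▸ P.zero_mem)
  have cz : ∀ y, (algebraMap ℂ A l - star z * z) * y = y * (algebraMap ℂ A l - star z * z) := fun y =>
    ((Algebra.commute_algebraMap_left l y).sub_left
      ((Set.mem_center_iff.1 (Set.mul_mem_center (Set.star_mem_center hz) hz)).comm y) :)
  have := sub hd hε (M := .mk' {y | ∃ c, y = c * (algebraMap ℂ A l - star z * z)} ⟨0, by simp⟩
    (by rintro _ _ ⟨a, rfl⟩ ⟨b, rfl⟩; exact ⟨a + b, by rw [add_mul]⟩)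
    (by rintro _ ⟨a, rfl⟩; exact ⟨-a, by rw [neg_mul]⟩)
    (by rintro a _ ⟨b, rfl⟩; exact ⟨a * b, by rw [mul_assoc]⟩)
    (by rintro _ a ⟨b, rfl⟩; exact ⟨b * a, by rw [mul_assoc, cz, mul_assoc]⟩))
    (fun h => by
      obtain ⟨c, hc⟩ := (TwoSidedIdeal.mem_mk' ..).1 ((TwoSidedIdeal.one_mem_iff _).2 h)
      exact hl c hc.symm) ((TwoSidedIdeal.mem_mk' ..).2 ⟨1, (one_mul _).symm⟩)
  simp [(mM z).1 h, l0, AlgHomClass.commutes] at this

end Pool.Agent.Results.MP_4da108_an.Hall
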